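import Pool.Agent.Hhelper49.Tau.Main

/-!
# Critical cardinalities of `S_1(T, Ω)` and `S_1(T, O)`: both equal `cov(M)` unless `𝔟 < cov(M)`

In ZFC `min {𝔟, non(S_1(T, Ω))} = min {𝔟, non(S_1(T, O))} = min {𝔟, cov(M)}`, and both critical
cardinalities are equal to `cov(M)` as soon as `cov(M) ≤ 𝔟`.
-/

namespace Pool.Agent.Results.MP_556fe5_lc.CovMeagerBelowB

open Pool.Agent.Hhelper49.Tau

theorem result :
    min 𝔟 nonTΩ = min 𝔟 covM ∧ min 𝔟 nonTO = min 𝔟 covM ∧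
      (¬ (nonTΩ = covM ∧ nonTO = covM) → 𝔟 < covM) := by
  obtain ⟨-, -, h3, h4, h5⟩ := main
  exact ⟨h4, h5, fun h => lt_of_not_ge fun hb => h (h3 hb)⟩

end Pool.Agent.Results.MP_556fe5_lc.CovMeagerBelowB
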